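import Pool.Agent.N869.GK.StmH
import Pool.Agent.N475.GK.BOXG

/-!
# Project GK (helper869), variant H: the box, prescribed values (helper383)

Port of `Pool/Agent/N475/GK/BOXG.lean`.
-/

set_option autoImplicit false
set_option linter.unusedVariables false
set_option linter.unusedSectionVars false

open scoped Classical

namespace Pool.Agent.N383.GK.BOXH

open Finset
open Pool.Agent.Y703.CQ (nr sg)
open Pool.Agent.N973.ND (uu)
open Pool.Agent.N916.GB (Po ps HB S_EQ)
open Pool.Agent.N869.QT.L (prs ext Lc Fam)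
open Pool.Agent.N869.QT.G (sys exC pr)
open Pool.Agent.N869.ZE (cnt lc BoxA)
open Pool.Agent.N869.ZE.A (PairK)
open Pool.Agent.N869.GK
open Pool.Agent.N475.ZE.BOXK (z2_self z2_swap fcc nr_recip HB_sub card_ps ez0 ez0_coe sumW)
open Pool.Agent.N475.GK.BOXG (row_congr sol_congr gk_congr Wg fe fe_inj mem_sys sym ext_sym gk_iff
  LNG ndG_iff expo2)

/-- **The joint count in a box.** -/
theorem t_BOXH : Pool.Agent.N869.GK.H.S_BOXH := by
  intro hSUB r D M lb hL I Q _ _ ρ E hE ε K hLA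
  refine ⟨1, ?_⟩
  intro V _ lv P0 hOk γ
  obtain ⟨G, hG⟩ : ∃ G : Finset ℕ → Prop, G = fun S => ∀ a, Gk D lb nr (ρ a) (sys γ E S a) := ⟨_, rfl⟩
  rw [← hG]
  intro ι _ _ τ C X κ S₀ hκ hCX hPair hS₀ hC hdis hhyp
  have hEQ : S_EQ := Pool.Agent.N19.GB.t_EQ
  have hHB : HB C X κ := hPair
  obtain ⟨R, hR⟩ : ∃ R : ℝ, R = 2 ^ (ps ι).card * (κ * ∏ j, (X j : ℝ)) := ⟨_, rfl⟩
  have hX0 : 0 ≤ κ * ∏ j, (X j : ℝ) :=
    mul_nonneg hκ (Finset.prod_nonneg fun j _ => by positivity)
  have hR0 : 0 ≤ R := by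
    rw [hR]
    exact mul_nonneg (by positivity) hX0
  rcases (Fintype.piFinset C).eq_empty_or_nonempty with hemp | hnem
  · rw [hemp, Finset.filter_empty, Finset.filter_empty, Finset.card_empty, Nat.cast_zero, mul_zero,
      mul_zero, sub_zero, abs_zero, zero_add]
    exact mul_nonneg (by positivity) hX0
  obtain ⟨q₀, hq₀⟩ := hnem
  -- the colours and the labels
  obtain ⟨g, hgd⟩ : ∃ g : ι → Q, g = fun i => (τ i).1 := ⟨_, rfl⟩
  obtain ⟨lJ, hlJ⟩ : ∃ lJ : ι → Gr r, lJ = fun i => lb (q₀ i) := ⟨_, rfl⟩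
  -- facts on tuples
  have hinj : ∀ p ∈ Fintype.piFinset C, Function.Injective p := by
    intro p hp i j hij
    rw [Fintype.mem_piFinset] at hp
    by_contra hne
    have h1 := Finset.disjoint_left.1 (hdis i j hne) (hp i)
    rw [hij] at h1
    exact h1 (hp j)
  have hpr : ∀ p ∈ Fintype.piFinset C, ∀ i, Po (p i) := by
    intro p hp i
    rw [Fintype.mem_piFinset] at hp
    exact (hC i _ (hp i)).1
  have hOk' : ∀ p ∈ Fintype.piFinset C, (∀ x ∈ S₀ ∪ univ.image p, ¬ x ∣ M) ∧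
      ∀ a, ∑ x ∈ sys γ E (S₀ ∪ univ.image p) a, lb x = 0 := by
    intro p hp
    refine hOk.2 γ _ (fun x hx => ?_) (hhyp p hp)
    rw [Finset.mem_union, Finset.mem_image] at hx
    rcases hx with hx | ⟨i, -, rfl⟩
    · exact hS₀ x hx
    · exact hpr p hp i
  have hd0 : ∀ p ∈ Fintype.piFinset C, ∀ i, p i ∉ S₀ := by
    intro p hp i
    rw [Fintype.mem_piFinset] at hp
    exact (hC i _ (hp i)).2.1
  have hM1 : ∀ u ∈ S₀, ¬ u ∣ M := fun u hu => (hOk' q₀ hq₀).1 u (Finset.mem_union_left _ hu)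
  have hM2 : ∀ p ∈ Fintype.piFinset C, ∀ i, ¬ p i ∣ M := fun p hp i =>
    (hOk' p hp).1 _ (Finset.mem_union_right _ (Finset.mem_image_of_mem _ (Finset.mem_univ i)))
  have hg : ∀ p ∈ Fintype.piFinset C, ∀ i, γ (p i) = g i := by
    intro p hp i
    rw [Fintype.mem_piFinset] at hp
    rw [hgd]
    exact congrArg Prod.fst (hC i _ (hp i)).2.2
  have hl : ∀ p ∈ Fintype.piFinset C, ∀ i, lb (p i) = lJ i := by
    intro p hp i
    have h1 := hpr p hp i
    have h2 := hpr q₀ hq₀ i
    rw [Fintype.mem_piFinset] at hp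
    have hq := Fintype.mem_piFinset.1 hq₀
    rw [hlJ]
    refine hOk.1 _ _ h1 h2 ?_
    have h3 := congrArg Prod.snd (hC i _ (hp i)).2.2
    have h4 := congrArg Prod.snd (hC i _ (hq i)).2.2
    exact h3.trans h4.symm
  -- the part with given labels
  have h1 : ∀ β : ι → (S₀ → ZMod 2), LNG K S₀ g lJ β →
      |(((Fintype.piFinset C).filter fun p => (fun i (u : S₀) => nr (p i) u) = β ∧
          G (S₀ ∪ univ.image p)).card : ℝ) -
        (∏ a, kap (ρ a)) *
          (((Fintype.piFinset C).filter fun p => (fun i (u : S₀) => nr (p i) u) = β).card : ℝ)| ≤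
      ε * (((Fintype.piFinset C).filter fun p =>
        (fun i (u : S₀) => nr (p i) u) = β).card : ℝ) + R := by
    intro β hβ
    obtain ⟨C', hC'⟩ : ∃ C' : ι → Finset ℕ,
        C' = fun i => (C i).filter fun q => (fun u : S₀ => nr q u) = β i := ⟨_, rfl⟩
    have hpi : (Fintype.piFinset C).filter (fun p => (fun i (u : S₀) => nr (p i) u) = β) =
        Fintype.piFinset C' := by
      ext p
      simp only [Finset.mem_filter, Fintype.mem_piFinset, hC']
      constructor
      · rintro ⟨h2, h3⟩ i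
        exact ⟨h2 i, congrFun h3 i⟩
      · intro h2
        exact ⟨fun i => (h2 i).1, funext fun i => (h2 i).2⟩
    have hH : HypG D K (Wg γ E S₀) E g (fun u : S₀ => lb u) lJ (fun u v : S₀ => nr u v)
        (fun (u : S₀) l => β l u) := by
      constructor
      · intro q π
        rw [Fintype.card_coe]
        exact (hβ q).2 π
      · intro a
        have h3 := (hOk' q₀ hq₀).2 a
        have e2 : sys γ E (S₀ ∪ univ.image q₀) a = sys γ E S₀ a ∪ (Lc E g a).image q₀ := by
          unfold sys Lc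
          rw [Finset.filter_union]
          congr 1
          ext x
          rw [Finset.mem_filter, Finset.mem_image, Finset.mem_image]
          constructor
          · rintro ⟨⟨k, -, rfl⟩, h⟩
            exact ⟨k, Finset.mem_filter.2 ⟨Finset.mem_univ _, by rw [← hg q₀ hq₀]; exact h⟩, rfl⟩
          · rintro ⟨k, hk, rfl⟩
            exact ⟨⟨k, Finset.mem_univ _, rfl⟩, by rw [hg q₀ hq₀]; exact (Finset.mem_filter.1 hk).2⟩
        have e1 : ∑ x ∈ sys γ E (S₀ ∪ univ.image q₀) a, lb x =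
            ∑ x ∈ sys γ E S₀ a, lb x + ∑ l ∈ Lc E g a, lJ l := by
          rw [e2, Finset.sum_union, Finset.sum_image (fun a _ b _ h => hinj q₀ hq₀ h)]
          · congr 1
            exact Finset.sum_congr rfl fun l _ => hl q₀ hq₀ l
          · rw [Finset.disjoint_left]
            intro x hx hx'
            rw [Finset.mem_image] at hx'
            obtain ⟨i, -, rfl⟩ := hx'
            exact hd0 q₀ hq₀ i (Finset.mem_filter.1 hx).1
        have e3 : ∑ u ∈ Wg γ E S₀ a, lb (u : ℕ) = ∑ x ∈ sys γ E S₀ a, lb x := by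
          unfold Wg
          rw [Finset.sum_filter,
            Finset.sum_coe_sort S₀ (fun v => if v ∈ sys γ E S₀ a then lb v else 0),
            ← Finset.sum_filter]
          congr 1
          ext x
          rw [Finset.mem_filter]
          exact ⟨fun h => h.2, fun h => ⟨(Finset.mem_filter.1 h).1, h⟩⟩
        rw [e1] at h3
        rw [e3]
        exact h3
      · intro u v huv
        have h3 := nr_recip (hS₀ u u.2) (hS₀ v v.2) (fun h => huv (Subtype.ext h))
        rw [h3, hL.uu u (hS₀ u u.2).1 (hM1 u u.2), hL.uu v (hS₀ v v.2).1 (hM1 v v.2)]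
      · intro q w hw
        exact (hβ q).1 w hw
    have h2 := hLA S₀ ι (Wg γ E S₀) g _ _ _ _ hH
    obtain ⟨P, hP⟩ : ∃ P : (prs ι → ZMod 2) → Prop, P = fun α => ∀ a : I,
        Gk D (Sum.elim (fun u : S₀ => lb u) lJ) (Nm D (fun u : S₀ => lb u) lJ
          (fun u v : S₀ => nr u v) (fun (u : S₀) l => β l u) α) (ρ a) (TT (Wg γ E S₀) E g a) := ⟨_, rfl⟩
    -- the translation
    obtain ⟨sh, hsh⟩ : ∃ sh : prs ι → ZMod 2,
        sh = fun e => dot D.em (lJ e.1.1) * dot D.em (lJ e.1.2) := ⟨_, rfl⟩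
    obtain ⟨P', hP'⟩ : ∃ P' : (prs ι → ZMod 2) → Prop, P' = fun α => P (α + sh) := ⟨_, rfl⟩
    have h3 := hEQ ι C' X κ hκ
      (fun i => (Finset.card_le_card (by rw [hC']; exact Finset.filter_subset _ _)).trans (hCX i))
      (by rw [hC']; exact HB_sub hHB fun i q => (fun u : S₀ => nr q u) = β i) P'
    have hsym : ∀ p ∈ Fintype.piFinset C, sym p =
        (fun e : prs ι => nr (p e.1.1) (p e.1.2)) + sh := by
      intro p hp
      funext e
      rw [hsh]
      show nr (p e.1.2) (p e.1.1) = nr (p e.1.1) (p e.1.2) +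
        dot D.em (lJ e.1.1) * dot D.em (lJ e.1.2)
      have hne : e.1.1 ≠ e.1.2 := by
        have := e.2
        unfold prs at this
        rw [Finset.mem_filter] at this
        exact this.2.ne
      have h4 := nr_recip (hpr p hp e.1.1) (hpr p hp e.1.2) (fun h => hne (hinj p hp h))
      rw [z2_swap h4, hL.uu _ (hpr p hp _).1 (hM2 p hp _), hL.uu _ (hpr p hp _).1 (hM2 p hp _),
        hl p hp, hl p hp]
    have h4 : ((Fintype.piFinset C).filter fun p => (fun i (u : S₀) => nr (p i) u) = β ∧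
        G (S₀ ∪ univ.image p)) = ((Fintype.piFinset C').filter fun p =>
          P ((fun e => nr (p e.1.1) (p e.1.2)) + sh)) := by
      rw [← hpi, Finset.filter_filter]
      refine Finset.filter_congr fun p hp => ?_
      refine and_congr_right fun hlab => ?_
      rw [← hsym p hp, hP, hG]
      refine forall_congr' fun a => ?_
      rw [gk_iff hSUB D hL (ρ a) (hinj p hp) (hpr p hp) hS₀ (hd0 p hp) (hg p hp) (hl p hp) hM1
        (hM2 p hp) a]
      subst hlab
      exact Iff.rfl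
    have h5 : (((Fintype.piFinset C').card : ℕ) : ℝ) = ∏ j, ((C' j).card : ℝ) := by
      rw [Fintype.card_piFinset]
      push_cast
      rfl
    rw [h4, hpi, h5]
    rw [← hR] at h3
    obtain ⟨n, hn⟩ : ∃ n : ℝ, n = (((Fintype.piFinset C').filter fun p =>
          P ((fun e => nr (p e.1.1) (p e.1.2)) + sh)).card : ℝ) := ⟨_, rfl⟩
    obtain ⟨q, hq⟩ : ∃ q : ℝ, q = ((univ.filter fun α : prs ι → ZMod 2 => P (α + sh)).card : ℝ) /
        2 ^ (prs ι).card := ⟨_, rfl⟩
    obtain ⟨Pr, hPr⟩ : ∃ Pr : ℝ, Pr = ∏ j, ((C' j).card : ℝ) := ⟨_, rfl⟩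
    obtain ⟨c, hc⟩ : ∃ c : ℝ, c = ∏ a, kap (ρ a) := ⟨_, rfl⟩
    have hP0 : 0 ≤ Pr := by
      rw [hPr]
      exact Finset.prod_nonneg fun j _ => by positivity
    have htr : (univ.filter fun α : prs ι → ZMod 2 => P (α + sh)).card =
        (univ.filter fun α : prs ι → ZMod 2 => P α).card := by
      refine Finset.card_bij (fun α _ => α + sh) ?_ ?_ ?_
      · intro α hα
        rw [Finset.mem_filter] at hα ⊢
        exact ⟨Finset.mem_univ _, hα.2⟩
      · intro α _ α' _ h
        exact add_right_cancel h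
      · intro α hα
        rw [Finset.mem_filter] at hα
        refine ⟨α - sh, ?_, sub_add_cancel _ _⟩
        rw [Finset.mem_filter, sub_add_cancel]
        exact ⟨Finset.mem_univ _, hα.2⟩
    have e8 : ∀ n1 n2 : ℕ, n1 = n2 →
        |(n2 : ℝ) / 2 ^ (prs ι).card - ∏ a, kap (ρ a)| ≤ ε →
        |(n1 : ℝ) / 2 ^ (prs ι).card - ∏ a, kap (ρ a)| ≤ ε := by
      rintro n1 n2 rfl h
      exact h
    have h2' : |q - c| ≤ ε := by
      rw [hq, hc, htr, hP]
      exact e8 _ _ (fcc fun x _ => Iff.rfl) h2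
    have h3' : |n - q * Pr| ≤ R := by
      rw [hn, hq, hPr]
      have e9 : ∀ n1 n2 m1 m2 : ℕ, n1 = n2 → m1 = m2 →
          |(n2 : ℝ) - (m2 : ℝ) / 2 ^ (ps ι).card * ∏ j, ((C' j).card : ℝ)| ≤ R →
          |(n1 : ℝ) - (m1 : ℝ) / 2 ^ (prs ι).card * ∏ j, ((C' j).card : ℝ)| ≤ R := by
        rintro n1 n2 m1 m2 rfl rfl h
        exact h
      refine e9 _ _ _ _ ?_ ?_ h3
      · rw [hP']
        exact fcc fun x _ => Iff.rfl
      · rw [hP']
        exact fcc fun x _ => Iff.rfl
    rw [← hn, ← hPr, ← hc]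
    have h6 : |n - c * Pr| ≤ |n - q * Pr| + |q - c| * Pr := by
      have h7 : n - c * Pr = (n - q * Pr) + (q - c) * Pr := by ring
      have h8 : |(q - c) * Pr| = |q - c| * Pr := by rw [abs_mul, abs_of_nonneg hP0]
      rw [h7, ← h8]
      exact abs_add_le _ _
    have h7 : |q - c| * Pr ≤ ε * Pr := mul_le_mul_of_nonneg_right h2' hP0
    linarith
  -- sum over the labels
  obtain ⟨LL, hLL⟩ : ∃ LL : Finset (ι → (S₀ → ZMod 2)),
      LL = univ.filter (fun β => LNG K S₀ g lJ β) := ⟨_, rfl⟩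
  have hfib : ∀ T : (ι → ℕ) → Prop,
      (((Fintype.piFinset C).filter fun p => NdG lb K γ S₀ (univ.image p) ∧ T p).card : ℝ) =
      ∑ β ∈ LL, (((Fintype.piFinset C).filter fun p =>
        (fun i (u : S₀) => nr (p i) u) = β ∧ T p).card : ℝ) := by
    intro T
    rw [Finset.card_eq_sum_card_fiberwise (f := fun (p : ι → ℕ) (i : ι) (u : S₀) => nr (p i) u)
      (t := LL) (by
        intro p hp
        rw [Finset.mem_coe, Finset.mem_filter] at hp
        rw [Finset.mem_coe, hLL, Finset.mem_filter]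
        exact ⟨Finset.mem_univ _, (ndG_iff (hinj p hp.1) (hg p hp.1) (hl p hp.1) K).1 hp.2.1⟩)]
    push_cast
    refine Finset.sum_congr rfl fun β hβ => ?_
    rw [hLL, Finset.mem_filter] at hβ
    congr 2
    ext p
    simp only [Finset.mem_filter]
    constructor
    · rintro ⟨⟨h3, h4, h4'⟩, h5⟩
      exact ⟨h3, h5, h4'⟩
    · rintro ⟨h3, h4, h5⟩
      refine ⟨⟨h3, ?_, h5⟩, h4⟩
      rw [ndG_iff (hinj p h3) (hg p h3) (hl p h3) K, h4]
      exact hβ.2
  have hf1 := hfib fun p => G (S₀ ∪ univ.image p)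
  have hf2 := hfib fun _ => True
  simp only [and_true] at hf2
  rw [hf1, hf2, Finset.mul_sum, ← Finset.sum_sub_distrib]
  have hLm : ∀ β ∈ LL, LNG K S₀ g lJ β := by
    intro β hβ
    rw [hLL] at hβ
    exact (Finset.mem_filter.1 hβ).2
  have hs := Finset.sum_le_sum fun β hβ => h1 β (hLm β hβ)
  refine (Finset.abs_sum_le_sum_abs _ _).trans (hs.trans ?_)
  rw [Finset.sum_add_distrib, ← Finset.mul_sum, Finset.sum_const, nsmul_eq_mul]
  have h5 : ((LL.card : ℕ) : ℝ) ≤ 2 ^ (S₀.card * Fintype.card ι) := by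
    have h6 : LL.card ≤ Fintype.card (ι → (S₀ → ZMod 2)) :=
      Finset.card_le_univ _
    rw [Fintype.card_fun, Fintype.card_fun, ZMod.card, Fintype.card_coe, ← pow_mul] at h6
    exact_mod_cast h6
  have h6 := mul_le_mul_of_nonneg_right h5 hR0
  have h7 : (2 : ℝ) ^ (S₀.card * Fintype.card ι) * R ≤
      2 ^ (1 * (S₀.card + Fintype.card ι + 1) ^ 2) * (κ * ∏ j, (X j : ℝ)) := by
    rw [hR, ← mul_assoc, ← pow_add]
    refine mul_le_mul_of_nonneg_right ?_ hX0
    exact pow_le_pow_right₀ one_le_two (expo2 S₀.card _ _ (card_ps ι))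
  linarith

end Pool.Agent.N383.GK.BOXH
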